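import Pool.Agent.Helper35.MS.StC

set_option autoImplicit false

namespace Helper2.MS

open Helper35.MS Helper35.PI Helper35.PI2 Helper32.CL
open Set Filter

theorem ce0_fm0_le (x : ℝ) (hx : 0 ≤ x) : fm0 x ≤ 2 / 3 + 3 / 10 * x := by
  unfold fm0
  have h1 : 0 ≤ 22 * x / (25 * (1 + 8 * x)) := by positivity
  have h2 : 3 * x ^ 2 / (8 + 10 * x) ≤ 3 / 10 * x := by
    rw [div_le_iff₀ (by positivity)]
    nlinarith
  linarith

theorem ce0_fm0_ge (x : ℝ) (hx : 0 ≤ x) : 61 / 100 ≤ fm0 x := by
  unfold fm0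
  have ha : 0 < 1 + 8 * x := by positivity
  have hb : 0 < 8 + 10 * x := by positivity
  have e : 2 / 3 - 22 * x / (25 * (1 + 8 * x)) + 3 * x ^ 2 / (8 + 10 * x) - 61 / 100 =
      (600 * x ^ 3 - 95 / 3 * x ^ 2 - 427 / 6 * x + 34 / 3) /
        (25 * (1 + 8 * x) * (8 + 10 * x)) := by
    field_simp
    ring
  have h : 0 ≤ 600 * x ^ 3 - 95 / 3 * x ^ 2 - 427 / 6 * x + 34 / 3 := by
    nlinarith [mul_nonneg hx (sq_nonneg (x - 217 / 1000)), sq_nonneg (x - 217 / 1000)]
  have h2 : 0 ≤ (600 * x ^ 3 - 95 / 3 * x ^ 2 - 427 / 6 * x + 34 / 3) /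
        (25 * (1 + 8 * x) * (8 + 10 * x)) := by positivity
  linarith

theorem hCE0 : StCE0 := by
  refine ⟨fun x hx => ?_, fun x y hx hy h => ?_, fun x y hx hy => ?_⟩
  · have ha : (1 + 8 * x) ≠ 0 := by positivity
    have hb : (8 + 10 * x) ≠ 0 := by positivity
    have hu : (1 + 16 * x) ≠ 0 := by positivity
    have hu0 : 0 < 1 + 16 * x := by positivity
    refine ⟨ce0_fm0_le x hx, by unfold gm0; positivity, ?_, by unfold gm1; positivity, ?_,
      by unfold gm2; positivity, ?_, ?_, ?_, ?_⟩
    · unfold gm0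
      rw [div_le_div_iff₀ (by positivity) (by positivity)]
      nlinarith
    · unfold gm1
      rw [div_le_div_iff₀ (by positivity) (by positivity)]
      nlinarith [sq_nonneg x]
    · unfold fm0 fm1
      have d1 : HasDerivAt (fun y : ℝ => 22 * y / (25 * (1 + 8 * y)))
          ((22 * (25 * (1 + 8 * x)) - 22 * x * (25 * 8)) / (25 * (1 + 8 * x)) ^ 2) x := by
        have n1 : HasDerivAt (fun y : ℝ => 22 * y) 22 x := by
          simpa using (hasDerivAt_id x).const_mul 22
        have n2 : HasDerivAt (fun y : ℝ => 25 * (1 + 8 * y)) (25 * 8) x := by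
          simpa using (((hasDerivAt_id x).const_mul 8).const_add 1).const_mul 25
        exact n1.div n2 (by positivity)
      have d2 : HasDerivAt (fun y : ℝ => 3 * y ^ 2 / (8 + 10 * y))
          ((3 * (2 * x) * (8 + 10 * x) - 3 * x ^ 2 * 10) / (8 + 10 * x) ^ 2) x := by
        have n1 : HasDerivAt (fun y : ℝ => 3 * y ^ 2) (3 * (2 * x)) x := by
          simpa using (hasDerivAt_pow 2 x).const_mul 3
        have n2 : HasDerivAt (fun y : ℝ => 8 + 10 * y) 10 x := by
          simpa using ((hasDerivAt_id x).const_mul 10).const_add 8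
        exact n1.div n2 hb
      refine HasDerivAt.congr_deriv (((hasDerivAt_const x (2 / 3 : ℝ)).sub d1).add d2) ?_
      field_simp
      ring
    · unfold fm1 fm2
      have d1 : HasDerivAt (fun y : ℝ => -22 / (25 * (1 + 8 * y) ^ 2))
          ((0 * (25 * (1 + 8 * x) ^ 2) - (-22) * (25 * (2 * (1 + 8 * x) * 8))) /
            (25 * (1 + 8 * x) ^ 2) ^ 2) x := by
        have n1 : HasDerivAt (fun y : ℝ => 1 + 8 * y) 8 x := by
          simpa using ((hasDerivAt_id x).const_mul 8).const_add 1
        have n2 : HasDerivAt (fun y : ℝ => 25 * (1 + 8 * y) ^ 2) (25 * (2 * (1 + 8 * x) * 8)) x := by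
          have := (n1.fun_pow 2).const_mul 25
          simpa using this
        exact (hasDerivAt_const x (-22 : ℝ)).div n2 (by positivity)
      have d2 : HasDerivAt (fun y : ℝ => (48 * y + 30 * y ^ 2) / (8 + 10 * y) ^ 2)
          (((48 + 30 * (2 * x)) * (8 + 10 * x) ^ 2 -
            (48 * x + 30 * x ^ 2) * (2 * (8 + 10 * x) * 10)) / ((8 + 10 * x) ^ 2) ^ 2) x := by
        have n1 : HasDerivAt (fun y : ℝ => 8 + 10 * y) 10 x := by
          simpa using ((hasDerivAt_id x).const_mul 10).const_add 8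
        have n2 : HasDerivAt (fun y : ℝ => (8 + 10 * y) ^ 2) (2 * (8 + 10 * x) * 10) x := by
          simpa using n1.fun_pow 2
        have n3 : HasDerivAt (fun y : ℝ => 48 * y + 30 * y ^ 2) (48 + 30 * (2 * x)) x := by
          have a1 : HasDerivAt (fun y : ℝ => 48 * y) 48 x := by
            simpa using (hasDerivAt_id x).const_mul 48
          have a2 : HasDerivAt (fun y : ℝ => 30 * y ^ 2) (30 * (2 * x)) x := by
            simpa using (hasDerivAt_pow 2 x).const_mul 30
          exact a1.add a2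
        exact n3.div n2 (by positivity)
      refine HasDerivAt.congr_deriv (d1.add d2) ?_
      field_simp
      ring
    · unfold gm0 gm1
      have n2 : HasDerivAt (fun y : ℝ => 10 * (1 + 16 * y)) (10 * 16) x := by
        simpa using (((hasDerivAt_id x).const_mul 16).const_add 1).const_mul 10
      refine HasDerivAt.congr_deriv ((hasDerivAt_const x (3 : ℝ)).div n2 (by positivity)) ?_
      field_simp
      ring
    · unfold gm1 gm2
      have n1 : HasDerivAt (fun y : ℝ => 1 + 16 * y) 16 x := by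
        simpa using ((hasDerivAt_id x).const_mul 16).const_add 1
      have n2 : HasDerivAt (fun y : ℝ => 5 * (1 + 16 * y) ^ 2) (5 * (2 * (1 + 16 * x) * 16)) x := by
        have := (n1.fun_pow 2).const_mul 5
        simpa using this
      refine HasDerivAt.congr_deriv ((hasDerivAt_const x (24 : ℝ)).div n2 (by positivity)) ?_
      field_simp
      ring
  · have hu0 : 0 < 1 + 16 * x := by positivity
    have hg : 0 < gm0 x := by unfold gm0; positivity
    have h1 := ce0_fm0_ge x hx
    have h2 := ce0_fm0_le x hx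
    have h3 : y ^ 2 ≤ x * (2 / 3 + 3 / 10 * x) := by
      refine h.trans (mul_le_mul_of_nonneg_left ?_ hx)
      have := mul_nonneg hg.le hy
      linarith
    have h4 : gm0 x * y ≤ 1 / 20 := by
      have h5 : (gm0 x * y) ^ 2 ≤ (1 / 20) ^ 2 := by
        have e : gm0 x * (10 * (1 + 16 * x)) = 3 := by unfold gm0; field_simp
        have h6 : (gm0 x * y) ^ 2 * (10 * (1 + 16 * x)) ^ 2 = 9 * y ^ 2 := by
          have : (gm0 x * y) ^ 2 * (10 * (1 + 16 * x)) ^ 2 =
            (gm0 x * (10 * (1 + 16 * x))) ^ 2 * y ^ 2 := by ring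
          rw [this, e]; ring
        have h7 : (gm0 x * y) ^ 2 * (10 * (1 + 16 * x)) ^ 2 ≤
            (1 / 20) ^ 2 * (10 * (1 + 16 * x)) ^ 2 := by
          rw [h6]
          nlinarith [sq_nonneg x]
        exact le_of_mul_le_mul_right h7 (by positivity)
      exact abs_le_of_sq_le_sq' h5 (by norm_num) |>.2
    linarith
  · have hg0 : 0 < gm0 x := by unfold gm0; positivity
    have hg : gm0 x ≤ 3 / 10 := by
      unfold gm0
      rw [div_le_div_iff₀ (by positivity) (by positivity)]
      nlinarith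
    have h2 : 1 ≤ Real.sqrt 2 := by
      rw [Real.one_le_sqrt]; norm_num
    have h3 : gm0 x * y ≤ 2 * Real.sqrt 2 * y := mul_le_mul_of_nonneg_right (by linarith) hy
    have h4 : 2 / 3 - 2 * x ≤ fm0 x := by
      unfold fm0
      have h5 : 22 * x / (25 * (1 + 8 * x)) ≤ 2 * x := by
        rw [div_le_iff₀ (by positivity)]
        nlinarith [sq_nonneg x]
      have h6 : 0 ≤ 3 * x ^ 2 / (8 + 10 * x) := by positivity
      linarith
    linarith

end Helper2.MS
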