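import Pool.Agent.Helper2.MS.CE3a

set_option autoImplicit false

namespace Helper2.MS

open Helper35.MS Helper35.PI Helper35.PI2 Helper32.CL
open Set Filter

theorem ce3_f (x : ℝ) (hx : 0 ≤ x) :
    fm0 x = pF x / (150 * (1 + 8 * x) * (4 + 5 * x)) := by
  have ha : (1 + 8 * x) ≠ 0 := by positivity
  have hb : (4 + 5 * x) ≠ 0 := by positivity
  have hb2 : 8 + 10 * x = 2 * (4 + 5 * x) := by ring
  unfold fm0 pF
  rw [hb2]
  field_simp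
  ring

theorem ce3_C (x : ℝ) (hx : 0 ≤ x) :
    2 - 2 * fm1 x - gm1 x / 500 - (2 + gm0 x) ^ 2 / 4 =
      pC x / (10000 * (1 + 8 * x) ^ 2 * (4 + 5 * x) ^ 2 * (1 + 16 * x) ^ 2) := by
  have ha : (1 + 8 * x) ≠ 0 := by positivity
  have hb : (4 + 5 * x) ≠ 0 := by positivity
  have hu : (1 + 16 * x) ≠ 0 := by positivity
  have hb2 : 8 + 10 * x = 2 * (4 + 5 * x) := by ring
  unfold fm1 gm0 gm1 pC
  rw [hb2]
  field_simp
  ring

theorem ce3_N (x σ : ℝ) (hx : 0 ≤ x) (hσ : σ ^ 2 = 1) :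
    2 - 2 * fm1 x - gm1 x / 500 - (2 + 3 * (σ * (1 - 16 * x)) / (10 * (1 + 16 * x) ^ 2)) ^ 2 / 4
      - 4 * fm2 x * x =
      pN σ x / (10000 * (1 + 8 * x) ^ 3 * (4 + 5 * x) ^ 3 * (1 + 16 * x) ^ 4) := by
  have ha : (1 + 8 * x) ≠ 0 := by positivity
  have hb : (4 + 5 * x) ≠ 0 := by positivity
  have hu : (1 + 16 * x) ≠ 0 := by positivity
  have hb2 : 8 + 10 * x = 2 * (4 + 5 * x) := by ring
  have e : (2 + 3 * (σ * (1 - 16 * x)) / (10 * (1 + 16 * x) ^ 2)) ^ 2 / 4 =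
      1 + 3 * σ * (1 - 16 * x) / (10 * (1 + 16 * x) ^ 2) +
        9 * (1 - 16 * x) ^ 2 / (400 * (1 + 16 * x) ^ 4) := by
    have e2 : (2 + 3 * (σ * (1 - 16 * x)) / (10 * (1 + 16 * x) ^ 2)) ^ 2 / 4 =
      1 + 3 * σ * (1 - 16 * x) / (10 * (1 + 16 * x) ^ 2) +
        9 * σ ^ 2 * (1 - 16 * x) ^ 2 / (400 * (1 + 16 * x) ^ 4) := by
      field_simp
      ring
    rw [e2, hσ]; ring
  rw [e]
  unfold fm1 fm2 gm1 pN
  rw [hb2]
  field_simp
  ring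

theorem ce3_L (x : ℝ) (hx : 0 ≤ x) :
    6 * gm1 x - 4 * gm2 x * x = (144 - 768 * x) / (5 * (1 + 16 * x) ^ 3) := by
  have hu : (1 + 16 * x) ≠ 0 := by positivity
  unfold gm1 gm2
  field_simp
  ring

theorem ce3_abs (x σ : ℝ) (hx : 0 ≤ x) (hσ : |1 - 16 * x| = σ * (1 - 16 * x)) :
    |gm0 x - 2 * gm1 x * x| = 3 * (σ * (1 - 16 * x)) / (10 * (1 + 16 * x) ^ 2) := by
  have hu : 0 < (1 + 16 * x) := by positivity
  have e : gm0 x - 2 * gm1 x * x = 3 / (10 * (1 + 16 * x) ^ 2) * (1 - 16 * x) := by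
    unfold gm0 gm1
    field_simp
    ring
  rw [e, abs_mul, hσ, abs_of_nonneg (by positivity)]
  ring

/-- The algebra of the bounds. -/
theorem ce3_lin (N L y w s : ℝ) (hL : 0 ≤ L) (hs : 0 < s) (hsy : s * y ≤ w)
    (h : 0 < N * s - L * w) : 0 < N - L * y := by
  have h1 : L * (s * y) ≤ L * w := mul_le_mul_of_nonneg_left hsy hL
  have h2 : 0 < s * (N - L * y) := by nlinarith
  exact (mul_pos_iff_of_pos_left hs).1 h2

theorem ce3_lin2 (a b y w s : ℝ) (hy : 0 ≤ y) (hs : 0 < s) (hsy : s * y ≤ w)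
    (h0 : 0 ≤ a) (h1 : 0 ≤ a * s + b * w) : 0 ≤ a + b * y := by
  rcases le_total 0 b with hb | hb
  · have := mul_nonneg hb hy
    linarith
  · have h2 : b * w ≤ b * (s * y) := mul_le_mul_of_nonpos_left hsy hb
    have h3 : 0 ≤ s * (a + b * y) := by nlinarith
    exact (mul_nonneg_iff_of_pos_left hs).1 h3

theorem ce3_idN (PN PF a b u x t : ℝ) (ha : a ≠ 0) (hb : b ≠ 0) (hu : u ≠ 0) :
    PN / (10000 * a ^ 3 * b ^ 3 * u ^ 4) * (2 * t + 3 / (10 * u) * x) -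
      (144 - 768 * x) / (5 * u ^ 3) * (x * (PF / (150 * a * b)) + t ^ 2) =
    (3 * PN * (20 * t * u + 3 * x) - 400 * a ^ 2 * b ^ 2 * u ^ 2 * (144 - 768 * x) *
      (x * PF + 150 * a * b * t ^ 2)) / (300000 * a ^ 3 * b ^ 3 * u ^ 5) := by
  field_simp
  ring

theorem ce3_idC (PC PF a b u x t : ℝ) (ha : a ≠ 0) (hb : b ≠ 0) (hu : u ≠ 0) :
    PC / (10000 * a ^ 2 * b ^ 2 * u ^ 2) * (2 * t + 3 / (10 * u) * x) -
      2 * (24 / (5 * u ^ 2)) * (x * (PF / (150 * a * b)) + t ^ 2) =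
    (PC * (20 * t * u + 3 * x) - 6400 * a * b * u *
      (x * PF + 150 * a * b * t ^ 2)) / (100000 * a ^ 2 * b ^ 2 * u ^ 3) := by
  field_simp
  ring

theorem ce3_idE0 (PN PC PF a b u x t : ℝ) (ha : a ≠ 0) (hb : b ≠ 0) (hu : u ≠ 0) :
    PN / (10000 * a ^ 3 * b ^ 3 * u ^ 4) * (PC / (10000 * a ^ 2 * b ^ 2 * u ^ 2)) -
      4 * (24 / (5 * u ^ 2)) ^ 2 * x * (PF / (150 * a * b)) -
      (2 * (24 / (5 * u ^ 2)) * ((144 - 768 * x) / (5 * u ^ 3)) + 4 * (24 / (5 * u ^ 2)) ^ 2) * t ^ 2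
      = (PN * PC - 61440000 * a ^ 4 * b ^ 4 * u ^ 2 * (x * PF) -
        100000000 / 25 * (48 * (144 - 768 * x) + 2304 * u) * a ^ 5 * b ^ 5 * u * t ^ 2) /
        (100000000 * a ^ 5 * b ^ 5 * u ^ 6) := by
  field_simp
  ring

theorem ce3_idE1 (PN PC PF a b u x t : ℝ) (ha : a ≠ 0) (hb : b ≠ 0) (hu : u ≠ 0) :
    (PN * PC - 61440000 * a ^ 4 * b ^ 4 * u ^ 2 * (x * PF) -
        36864000000 * a ^ 5 * b ^ 5 * u * t ^ 2) /
        (100000000 * a ^ 5 * b ^ 5 * u ^ 6) * (2 * t + 3 / (10 * u) * x) +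
      (4 * (24 / (5 * u ^ 2)) ^ 2 * (3 / (10 * u)) * x -
        (144 - 768 * x) / (5 * u ^ 3) * (PC / (10000 * a ^ 2 * b ^ 2 * u ^ 2)) -
        2 * (24 / (5 * u ^ 2)) * (PN / (10000 * a ^ 3 * b ^ 3 * u ^ 4)) +
        2 * t * (9216 / (25 * u ^ 5))) * (x * (PF / (150 * a * b)) + t ^ 2)
      = ((PN * PC - 61440000 * a ^ 4 * b ^ 4 * u ^ 2 * (x * PF) -
        36864000000 * a ^ 5 * b ^ 5 * u * t ^ 2) * (20 * t * u + 3 * x) +
        (-(400 / 3) * (144 - 768 * x) * a ^ 2 * b ^ 2 * u ^ 2 * PC - 6400 * a * b * u * PN +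
          20000000 / 3 * a ^ 4 * b ^ 4 * u ^ 2 * (3456 / 125 * x + 18432 / 25 * t)) *
          (x * PF + 150 * a * b * t ^ 2)) / (1000000000 * a ^ 5 * b ^ 5 * u ^ 7) := by
  field_simp
  ring

theorem ce3_sy (x y t : ℝ) (hq : y ^ 2 ≤ x * (fm0 x - gm0 x * y)) :
    (2 * t + gm0 x * x) * y ≤ x * fm0 x + t ^ 2 := by
  nlinarith [sq_nonneg (y - t)]

/-- the bound for `c` -/
theorem ce3_c (x y t : ℝ) (hx : 0 ≤ x) (ht : 0 < t)
    (hq : y ^ 2 ≤ x * (fm0 x - gm0 x * y)) (h : 0 < qC t x) :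
    0 < 2 - 2 * fm1 x - gm1 x / 500 - (2 + gm0 x) ^ 2 / 4 - 2 * gm1 x * y := by
  have hsy := ce3_sy x y t hq
  have ha : (1 + 8 * x) ≠ 0 := by positivity
  have hb : (4 + 5 * x) ≠ 0 := by positivity
  have hu : (1 + 16 * x) ≠ 0 := by positivity
  have hg : 0 ≤ gm0 x := by unfold gm0; positivity
  have hG : 0 ≤ 2 * gm1 x := by unfold gm1; positivity
  have hs : 0 < 2 * t + gm0 x * x := by positivity
  refine ce3_lin _ _ y _ _ hG hs hsy ?_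
  have e := ce3_idC (pC x) (pF x) (1 + 8 * x) (4 + 5 * x) (1 + 16 * x) x t ha hb hu
  rw [ce3_C x hx, ce3_f x hx]
  have e2 : gm0 x = 3 / (10 * (1 + 16 * x)) := rfl
  have e3 : gm1 x = 24 / (5 * (1 + 16 * x) ^ 2) := rfl
  rw [e2, e3, e]
  have h2 : 0 < pC x * (20 * t * (1 + 16 * x) + 3 * x) -
      6400 * (1 + 8 * x) * (4 + 5 * x) * (1 + 16 * x) *
        (x * pF x + 150 * (1 + 8 * x) * (4 + 5 * x) * t ^ 2) := h
  exact div_pos h2 (by positivity)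

/-- the bound for `n`, `x` at most `3/16` -/
theorem ce3_n (x y t σ : ℝ) (hx : 0 ≤ x) (hx2 : x ≤ 3 / 16) (ht : 0 < t)
    (hσ2 : σ ^ 2 = 1) (hσ : |1 - 16 * x| = σ * (1 - 16 * x))
    (hq : y ^ 2 ≤ x * (fm0 x - gm0 x * y)) (h : 0 < qN σ t x) :
    0 < 2 - 2 * fm1 x - gm1 x / 500 - (2 + |gm0 x - 2 * gm1 x * x|) ^ 2 / 4 - 4 * fm2 x * x -
      (6 * gm1 x - 4 * gm2 x * x) * y := by
  have hsy := ce3_sy x y t hq
  have ha : (1 + 8 * x) ≠ 0 := by positivity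
  have hb : (4 + 5 * x) ≠ 0 := by positivity
  have hu : (1 + 16 * x) ≠ 0 := by positivity
  have hg : 0 ≤ gm0 x := by unfold gm0; positivity
  have hL : 0 ≤ 6 * gm1 x - 4 * gm2 x * x := by
    rw [ce3_L x hx]
    exact div_nonneg (by linarith) (by positivity)
  have hs : 0 < 2 * t + gm0 x * x := by positivity
  refine ce3_lin _ _ y _ _ hL hs hsy ?_
  have e := ce3_idN (pN σ x) (pF x) (1 + 8 * x) (4 + 5 * x) (1 + 16 * x) x t ha hb hu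
  rw [ce3_abs x σ hx hσ, ce3_N x σ hx hσ2, ce3_f x hx, ce3_L x hx]
  have e2 : gm0 x = 3 / (10 * (1 + 16 * x)) := rfl
  rw [e2, e]
  have h2 : 0 < 3 * pN σ x * (20 * t * (1 + 16 * x) + 3 * x) -
      400 * (1 + 8 * x) ^ 2 * (4 + 5 * x) ^ 2 * (1 + 16 * x) ^ 2 * (144 - 768 * x) *
        (x * pF x + 150 * (1 + 8 * x) * (4 + 5 * x) * t ^ 2) := h
  exact div_pos h2 (by positivity)

/-- the bound for `n`, `x` at least `3/16` -/
theorem ce3_n2 (x y : ℝ) (hx2 : 3 / 16 ≤ x) (hy : 0 ≤ y) (h : 0 < pN (-1) x) :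
    0 < 2 - 2 * fm1 x - gm1 x / 500 - (2 + |gm0 x - 2 * gm1 x * x|) ^ 2 / 4 - 4 * fm2 x * x -
      (6 * gm1 x - 4 * gm2 x * x) * y := by
  have hx : 0 ≤ x := by linarith
  have hσ : |1 - 16 * x| = (-1) * (1 - 16 * x) := by
    rw [abs_of_nonpos (by linarith)]; ring
  have hL : 6 * gm1 x - 4 * gm2 x * x ≤ 0 := by
    rw [ce3_L x hx]
    exact div_nonpos_of_nonpos_of_nonneg (by linarith) (by positivity)
  rw [ce3_abs x (-1) hx hσ, ce3_N x (-1) hx (by norm_num)]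
  have h1 : (6 * gm1 x - 4 * gm2 x * x) * y ≤ 0 := mul_nonpos_of_nonpos_of_nonneg hL hy
  have h2 : 0 < pN (-1) x / (10000 * (1 + 8 * x) ^ 3 * (4 + 5 * x) ^ 3 * (1 + 16 * x) ^ 4) :=
    div_pos h (by positivity)
  linarith

/-- the third inequality -/
theorem ce3_E (x y t σ : ℝ) (hx : 0 ≤ x) (hy : 0 ≤ y) (ht : 0 < t)
    (hσ2 : σ ^ 2 = 1) (hσ : |1 - 16 * x| = σ * (1 - 16 * x))
    (hq : y ^ 2 ≤ x * (fm0 x - gm0 x * y)) (h0 : 0 ≤ qE0 σ t x) (h1 : 0 ≤ qE1 σ t x) :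
    4 * gm1 x ^ 2 * (x * (fm0 x - gm0 x * y) - y ^ 2) ≤
      (2 - 2 * fm1 x - gm1 x / 500 - (2 + |gm0 x - 2 * gm1 x * x|) ^ 2 / 4 - 4 * fm2 x * x -
        (6 * gm1 x - 4 * gm2 x * x) * y) *
      (2 - 2 * fm1 x - gm1 x / 500 - (2 + gm0 x) ^ 2 / 4 - 2 * gm1 x * y) := by
  have hsy := ce3_sy x y t hq
  have ha : (1 + 8 * x) ≠ 0 := by positivity
  have hb : (4 + 5 * x) ≠ 0 := by positivity
  have hu : (1 + 16 * x) ≠ 0 := by positivity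
  have hg : 0 ≤ gm0 x := by unfold gm0; positivity
  have hs : 0 < 2 * t + gm0 x * x := by positivity
  rw [ce3_abs x σ hx hσ, ce3_N x σ hx hσ2, ce3_C x hx, ce3_L x hx]
  have e2 : gm0 x = 3 / (10 * (1 + 16 * x)) := rfl
  have e3 : gm1 x = 24 / (5 * (1 + 16 * x) ^ 2) := rfl
  have hf := ce3_f x hx
  rw [hf] at hsy ⊢
  rw [e2] at hsy hs ⊢
  rw [e3]
  have i0 := ce3_idE0 (pN σ x) (pC x) (pF x) (1 + 8 * x) (4 + 5 * x) (1 + 16 * x) x t ha hb hu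
  have i1 := ce3_idE1 (pN σ x) (pC x) (pF x) (1 + 8 * x) (4 + 5 * x) (1 + 16 * x) x t ha hb hu
  have hC : 2 * (24 / (5 * (1 + 16 * x) ^ 2)) * ((144 - 768 * x) / (5 * (1 + 16 * x) ^ 3)) +
      4 * (24 / (5 * (1 + 16 * x) ^ 2)) ^ 2 = 9216 / (25 * (1 + 16 * x) ^ 5) := by
    field_simp
    ring
  have hn0 : 100000000 / 25 * (48 * (144 - 768 * x) + 2304 * (1 + 16 * x)) *
      (1 + 8 * x) ^ 5 * (4 + 5 * x) ^ 5 * (1 + 16 * x) * t ^ 2 =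
      36864000000 * (1 + 8 * x) ^ 5 * (4 + 5 * x) ^ 5 * (1 + 16 * x) * t ^ 2 := by
    ring
  rw [hn0, hC] at i0
  rw [← i0] at i1
  have h0' : 0 ≤ (pN σ x * pC x - 61440000 * (1 + 8 * x) ^ 4 * (4 + 5 * x) ^ 4 *
      (1 + 16 * x) ^ 2 * (x * pF x) - 36864000000 * (1 + 8 * x) ^ 5 * (4 + 5 * x) ^ 5 *
      (1 + 16 * x) * t ^ 2) / (100000000 * (1 + 8 * x) ^ 5 * (4 + 5 * x) ^ 5 *
      (1 + 16 * x) ^ 6) := div_nonneg h0 (by positivity)
  rw [← i0] at h0'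
  have h1' := div_nonneg h1 (by positivity :
    0 ≤ 1000000000 * (1 + 8 * x) ^ 5 * (4 + 5 * x) ^ 5 * (1 + 16 * x) ^ 7)
  unfold qE1 qE0 at h1'
  rw [← i1] at h1'
  have hl := ce3_lin2 _ _ y _ _ hy hs hsy h0' h1'
  generalize pN σ x / (10000 * (1 + 8 * x) ^ 3 * (4 + 5 * x) ^ 3 * (1 + 16 * x) ^ 4) = N0 at hl ⊢
  generalize pC x / (10000 * (1 + 8 * x) ^ 2 * (4 + 5 * x) ^ 2 * (1 + 16 * x) ^ 2) = C0 at hl ⊢
  generalize pF x / (150 * (1 + 8 * x) * (4 + 5 * x)) = f at hl ⊢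
  generalize hCC : 9216 / (25 * (1 + 16 * x) ^ 5) = Cc at hl hC
  have hCpos : 0 ≤ Cc := by rw [← hCC]; positivity
  generalize (144 - 768 * x) / (5 * (1 + 16 * x) ^ 3) = L at hl hC ⊢
  generalize 24 / (5 * (1 + 16 * x) ^ 2) = G at hl hC ⊢
  generalize 3 / (10 * (1 + 16 * x)) = g at hl ⊢
  have hsq : 0 ≤ Cc * (y - t) ^ 2 := by positivity
  have key : (N0 - L * y) * (C0 - 2 * G * y) - 4 * G ^ 2 * (x * (f - g * y) - y ^ 2) =
      (N0 * C0 - 4 * G ^ 2 * x * f - Cc * t ^ 2) +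
        (4 * G ^ 2 * g * x - L * C0 - 2 * G * N0 + 2 * t * Cc) * y + Cc * (y - t) ^ 2 := by
    rw [← hC]; ring
  linarith

theorem hCE3 : StCE3 := by
  intro x y hx hy g kh c n hg hy2 hkh hc hn
  subst hg
  have ec : c = 2 - 2 * fm1 x - gm1 x / 500 - (2 + gm0 x) ^ 2 / 4 - 2 * gm1 x * y := by
    rw [hc, hkh]; ring
  have en : n = 2 - 2 * fm1 x - gm1 x / 500 - (2 + |gm0 x - 2 * gm1 x * x|) ^ 2 / 4 -
      4 * fm2 x * x - (6 * gm1 x - 4 * gm2 x * x) * y := by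
    rw [hn, hkh]; ring
  rw [ec, en]
  refine ⟨ce3_c x y (x / 2 + 1 / 4) hx (by positivity) hy2
    (lt_of_lt_of_le (by norm_num) (cA x hx)), ?_, ?_⟩
  · rcases le_total x (1 / 16) with h1 | h1
    · have hσ : |1 - 16 * x| = 1 * (1 - 16 * x) := by
        rw [abs_of_nonneg (by linarith)]; ring
      exact ce3_n x y (7 / 50) 1 hx (by linarith) (by norm_num) (by norm_num) hσ hy2
        (lt_of_lt_of_le (by norm_num) (nA x hx h1))
    · rcases le_total x (3 / 16) with h2 | h2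
      · have hσ : |1 - 16 * x| = (-1) * (1 - 16 * x) := by
          rw [abs_of_nonpos (by linarith)]; ring
        exact ce3_n x y (4 / 25) (-1) hx h2 (by norm_num) (by norm_num) hσ hy2
          (lt_of_lt_of_le (by norm_num) (nB x h1 h2))
      · exact ce3_n2 x y h2 hy (lt_of_lt_of_le (by norm_num) (nC x h2))
  · rcases le_total x (1 / 16) with h1 | h1
    · have hσ : |1 - 16 * x| = 1 * (1 - 16 * x) := by
        rw [abs_of_nonneg (by linarith)]; ring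
      rcases le_total x (1 / 32) with h2 | h2
      · exact ce3_E x y (3 / 25) 1 hx hy (by norm_num) (by norm_num) hσ hy2
          (e0A x hx h2) (e1A x hx h2)
      · exact ce3_E x y (3 / 20) 1 hx hy (by norm_num) (by norm_num) hσ hy2
          (e0B x h2 h1) (e1B x h2 h1)
    · have hσ : |1 - 16 * x| = (-1) * (1 - 16 * x) := by
        rw [abs_of_nonpos (by linarith)]; ring
      rcases le_total x (1 / 4) with h2 | h2
      · exact ce3_E x y (9 / 50) (-1) hx hy (by norm_num) (by norm_num) hσ hy2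
          (e0C x h1 h2) (e1C x h1 h2)
      · exact ce3_E x y (x / 2 + 1 / 4) (-1) hx hy (by positivity) (by norm_num) hσ hy2
          (e0D x h2) (e1D x h2)

end Helper2.MS
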