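import Pool.Agent.Helper35.MS.StH

set_option autoImplicit false

namespace Helper2.MS

open Helper35.MS Helper35.PI Helper35.PI2 Helper32.CL
open scoped ContDiff Manifold Topology ENNReal BigOperators
open MeasureTheory Set Filter

/-- abstract vectors -/
theorem hsq_abs {N : ℕ} (A : Fin 2 → Fin 2 → EE N) (w : EE N) (hw : ‖w‖ = 1)
    (hA : ∀ a b, (inner ℝ (A a b) w : ℝ) = - (if a = b then 1 else 0)) :
    (A 0 0 + (1 : ℝ) • w) + (A 1 1 + (1 : ℝ) • w) = A 0 0 + A 1 1 + (2 : ℝ) • w ∧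
    (inner ℝ (A 0 0 + A 1 1) w : ℝ) = -2 ∧
    ‖(A 0 0 + (1 : ℝ) • w) + (A 1 1 + (1 : ℝ) • w)‖ ^ 2 = ‖A 0 0 + A 1 1‖ ^ 2 - 4 ∧
    ∑ a, ∑ b, ‖A a b + (if a = b then (1 : ℝ) else 0) • w‖ ^ 2 =
      ∑ a, ∑ b, (inner ℝ (A a b) (A a b) : ℝ) - 2 ∧
    0 ≤ ∑ a, ∑ b, ‖A a b + (if a = b then (1 : ℝ) else 0) • w‖ ^ 2 ∧
    ‖(A 0 0 + (1 : ℝ) • w) + (A 1 1 + (1 : ℝ) • w)‖ ^ 2 ≤
      2 * ∑ a, ∑ b, ‖A a b + (if a = b then (1 : ℝ) else 0) • w‖ ^ 2 := by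
  have e1 : (A 0 0 + (1 : ℝ) • w) + (A 1 1 + (1 : ℝ) • w) = A 0 0 + A 1 1 + (2 : ℝ) • w := by
    rw [two_smul, one_smul]
    abel
  have e2 : (inner ℝ (A 0 0 + A 1 1) w : ℝ) = -2 := by
    rw [inner_add_left, hA, hA, if_pos rfl, if_pos rfl]
    norm_num
  have q : ∀ a b, ‖A a b + (if a = b then (1 : ℝ) else 0) • w‖ ^ 2 =
      (inner ℝ (A a b) (A a b) : ℝ) - (if a = b then (1 : ℝ) else 0) := by
    intro a b
    rw [norm_add_sq_real, inner_smul_right, hA, norm_smul, hw, real_inner_self_eq_norm_sq]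
    by_cases h : a = b
    · rw [if_pos h]; norm_num; ring
    · rw [if_neg h]; norm_num
  have e4 : ∑ a, ∑ b, ‖A a b + (if a = b then (1 : ℝ) else 0) • w‖ ^ 2 =
      ∑ a, ∑ b, (inner ℝ (A a b) (A a b) : ℝ) - 2 := by
    simp only [q, Finset.sum_sub_distrib]
    simp
  refine ⟨e1, e2, ?_, e4, ?_, ?_⟩
  · rw [e1, norm_add_sq_real, inner_smul_right, e2, norm_smul, hw]
    norm_num
    ring
  · exact Finset.sum_nonneg fun a _ => Finset.sum_nonneg fun b _ => sq_nonneg _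
  · have p5 : ‖(A 0 0 + (1 : ℝ) • w) + (A 1 1 + (1 : ℝ) • w)‖ ^ 2 ≤
        2 * (‖A 0 0 + (1 : ℝ) • w‖ ^ 2 + ‖A 1 1 + (1 : ℝ) • w‖ ^ 2) := by
      have p1 := norm_add_le (A 0 0 + (1 : ℝ) • w) (A 1 1 + (1 : ℝ) • w)
      have p4 := norm_nonneg ((A 0 0 + (1 : ℝ) • w) + (A 1 1 + (1 : ℝ) • w))
      generalize ‖(A 0 0 + (1 : ℝ) • w) + (A 1 1 + (1 : ℝ) • w)‖ = c at *
      generalize ‖A 0 0 + (1 : ℝ) • w‖ = d at *
      generalize ‖A 1 1 + (1 : ℝ) • w‖ = e at *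
      nlinarith [sq_nonneg (d - e)]
    refine p5.trans (mul_le_mul_of_nonneg_left ?_ (by norm_num))
    rw [Fin.sum_univ_two, Fin.sum_univ_two, Fin.sum_univ_two, if_pos rfl, if_pos rfl]
    have p6 : 0 ≤ ‖A 0 1 + (if (0 : Fin 2) = 1 then (1 : ℝ) else 0) • w‖ ^ 2 := sq_nonneg _
    have p7 : 0 ≤ ‖A 1 0 + (if (1 : Fin 2) = 0 then (1 : ℝ) else 0) • w‖ ^ 2 := sq_nonneg _
    linarith

/-- the algebra at one point -/
theorem hsq_loc (hFR : StFR) (hNR : StNR) {N : ℕ} (f : EE 2 → EE N) (x : EE 2) (hLI : LI f x)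
    (hf : ‖f x‖ = 1) (h1 : ∀ i, (inner ℝ (f x) (dv1 f x i) : ℝ) = 0)
    (h2 : ∀ i j, (inner ℝ (f x) (dv2 f x i j) : ℝ) = - gram f x i j) :
    (∑ i, ∑ j, (gram f x)⁻¹ i j • sfs f x i j) = mcv f x + (2 : ℝ) • f x ∧
    (inner ℝ (mcv f x) (f x) : ℝ) = -2 ∧
    ‖∑ i, ∑ j, (gram f x)⁻¹ i j • sfs f x i j‖ ^ 2 = ‖mcv f x‖ ^ 2 - 4 ∧
    (∑ i, ∑ j, ∑ k, ∑ l, (gram f x)⁻¹ i k * (gram f x)⁻¹ j l *
      (inner ℝ (sfs f x i j) (sfs f x k l) : ℝ)) = nsq f x - 2 ∧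
    0 ≤ (∑ i, ∑ j, ∑ k, ∑ l, (gram f x)⁻¹ i k * (gram f x)⁻¹ j l *
      (inner ℝ (sfs f x i j) (sfs f x k l) : ℝ)) ∧
    ‖∑ i, ∑ j, (gram f x)⁻¹ i j • sfs f x i j‖ ^ 2 ≤
      2 * (∑ i, ∑ j, ∑ k, ∑ l, (gram f x)⁻¹ i k * (gram f x)⁻¹ j l *
      (inner ℝ (sfs f x i j) (sfs f x k l) : ℝ)) := by
  obtain ⟨-, -, P, -, -, hPg, -, hV, -, hQ⟩ := hFR 2 N f x hLI
  obtain ⟨-, -, -, hn4, -, -, hn7, -⟩ := hNR 2 N f x hLI
  have hnf : nrm f x (f x) = f x := hn4 _ h1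
  have hfA : ∀ i j, (inner ℝ (f x) (sff f x i j) : ℝ) = - gram f x i j := by
    intro i j
    rw [sff, ← hn7, hnf, h2]
  -- the frame
  have hδ : ∀ a b, ∑ i, ∑ j, P i a * P j b * gram f x i j = if a = b then 1 else 0 := by
    intro a b
    have := congrFun (congrFun hPg a) b
    rw [Matrix.one_apply] at this
    rw [← this, Matrix.mul_apply]
    simp only [Matrix.mul_apply, Matrix.transpose_apply, Finset.sum_mul]
    rw [Finset.sum_comm]
    exact Finset.sum_congr rfl fun i _ => Finset.sum_congr rfl fun j _ => by ring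
  set A' : Fin 2 → Fin 2 → EE N := fun a b => ∑ i, ∑ j, (P i a * P j b) • sff f x i j with hA'
  have hh' : ∀ a b, ∑ i, ∑ j, (P i a * P j b) • sfs f x i j =
      A' a b + (if a = b then (1 : ℝ) else 0) • f x := by
    intro a b
    rw [← hδ a b, Finset.sum_smul, hA']
    rw [← Finset.sum_add_distrib]
    refine Finset.sum_congr rfl fun i _ => ?_
    rw [Finset.sum_smul, ← Finset.sum_add_distrib]
    refine Finset.sum_congr rfl fun j _ => ?_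
    rw [sfs, smul_add, smul_smul]
  have hfA' : ∀ a b, (inner ℝ (A' a b) (f x) : ℝ) = - (if a = b then 1 else 0) := by
    intro a b
    rw [hA', real_inner_comm, inner_sum]
    rw [← hδ a b, ← Finset.sum_neg_distrib]
    refine Finset.sum_congr rfl fun i _ => ?_
    rw [inner_sum, ← Finset.sum_neg_distrib]
    refine Finset.sum_congr rfl fun j _ => ?_
    rw [inner_smul_right, hfA]
    ring
  have hH : mcv f x = A' 0 0 + A' 1 1 := by
    rw [mcv, hV, Fin.sum_univ_two]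
  have hHS : (∑ i, ∑ j, (gram f x)⁻¹ i j • sfs f x i j) =
      (A' 0 0 + (1 : ℝ) • f x) + (A' 1 1 + (1 : ℝ) • f x) := by
    rw [hV, Fin.sum_univ_two, hh' 0 0, hh' 1 1, if_pos rfl, if_pos rfl]
  have hA2 : nsq f x = ∑ a, ∑ b, (inner ℝ (A' a b) (A' a b) : ℝ) := by
    rw [nsq, hQ]
  have hh2 : (∑ i, ∑ j, ∑ k, ∑ l, (gram f x)⁻¹ i k * (gram f x)⁻¹ j l *
      (inner ℝ (sfs f x i j) (sfs f x k l) : ℝ)) =
      ∑ a, ∑ b, ‖A' a b + (if a = b then (1 : ℝ) else 0) • f x‖ ^ 2 := by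
    rw [hQ]
    refine Finset.sum_congr rfl fun a _ => Finset.sum_congr rfl fun b _ => ?_
    rw [hh', real_inner_self_eq_norm_sq]
  have hAA := hsq_abs A' (f x) hf hfA'
  rw [hHS, hh2, hH, hA2]
  exact hAA

theorem hHSQ (hFR : StFR) (hNR : StNR) (hI2J : StI2J) : StHSQ := by
  intro N M _ _ _ J F hF t ht hn q
  set φ := chartAt (EE 2) q with hφ
  set f : EE 2 → EE N := loc (n := 2) F q t with hfdef
  set x : EE 2 := φ q with hx
  have hfx : f x = F q t := by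
    change F (φ.symm (φ q)) t = F q t
    rw [φ.left_inv (mem_chart_source _ q)]
  have hxt : x ∈ φ.target := φ.map_source (mem_chart_source _ q)
  have hsm : ∀ y ∈ φ.target, ContDiffAt ℝ ∞ f y := by
    intro y hy
    have h1 := hI2J 2 N M J F hF q
    have h2 : φ.target ×ˢ J ∈ 𝓝 ((y, t) : EE 2 × ℝ) :=
      (φ.open_target.prod hF.op).mem_nhds ⟨hy, ht⟩
    have h3 : ContDiffAt ℝ ∞ (fun z : EE 2 × ℝ => F (φ.symm z.1) z.2) (y, t) :=
      (h1 (y, t) ⟨hy, ht⟩).contDiffAt h2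
    have h4 : ContDiffAt ℝ ∞ (fun y : EE 2 => ((y, t) : EE 2 × ℝ)) y := by fun_prop
    exact ContDiffAt.comp (f := fun y : EE 2 => ((y, t) : EE 2 × ℝ)) y h3 h4
  have hd : ∀ y ∈ φ.target, DifferentiableAt ℝ f y := fun y hy =>
    (hsm y hy).differentiableAt (by simp)
  have hnorm : ∀ y, (inner ℝ (f y) (f y) : ℝ) = 1 := by
    intro y
    rw [real_inner_self_eq_norm_sq]
    change ‖F (φ.symm y) t‖ ^ 2 = 1
    rw [hn, one_pow]
  have hA : ∀ y ∈ φ.target, ∀ v, (inner ℝ (f y) (fderiv ℝ f y v) : ℝ) = 0 := by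
    intro y hy v
    have h1 := fderiv_inner_apply ℝ (hd y hy) (hd y hy) v
    have h2 : (fun t => (inner ℝ (f t) (f t) : ℝ)) = fun _ => (1 : ℝ) := funext hnorm
    rw [h2] at h1
    simp only [fderiv_fun_const, Pi.zero_apply, zero_apply] at h1
    rw [real_inner_comm (f y) (fderiv ℝ f y v)] at h1
    linarith
  have hB : ∀ i j, (inner ℝ (f x) (dv2 f x i j) : ℝ) = - gram f x i j := by
    intro i j
    have hdd : DifferentiableAt ℝ (fun y => fderiv ℝ f y (ee j)) x := by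
      have h1 : ContDiffAt ℝ 1 (fderiv ℝ f) x := (hsm x hxt).fderiv_right (by norm_cast)
      exact (h1.differentiableAt (by norm_num)).clm_apply (differentiableAt_const _)
    have h1 := fderiv_inner_apply ℝ (hd x hxt) hdd (ee i)
    have h2 : (fun y => (inner ℝ (f y) (fderiv ℝ f y (ee j)) : ℝ)) =ᶠ[𝓝 x] fun _ => (0 : ℝ) := by
      filter_upwards [φ.open_target.mem_nhds hxt] with y hy
      exact hA y hy _
    rw [h2.fderiv_eq] at h1
    simp only [fderiv_fun_const, Pi.zero_apply, zero_apply] at h1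
    have h3 : gram f x i j = (inner ℝ (fderiv ℝ f x (ee i)) (fderiv ℝ f x (ee j)) : ℝ) := rfl
    rw [h3]
    unfold dv2
    linarith
  have key := hsq_loc hFR hNR f x (hF.imm q t ht) (by rw [hfx]; exact hn q)
    (fun i => hA x hxt _) hB
  rw [hfx] at key
  exact key

end Helper2.MS
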